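import Pool.Agent.N512.SA.Final

/-!
# The simple Anosov domains are not maximal domains of discontinuity

For every closed hyperbolic surface group `Γ` and every `d ≥ 4` there is one domain of discontinuity
for the action of `Out(Γ)` on the character variety `χ(Γ, SL(d, ℂ))` that strictly contains the
simple `k`-Anosov domain for every `1 ≤ k ≤ d - 1`.
-/

set_option autoImplicit false

open scoped MatrixGroups

namespace Pool.Agent.Results.MP_c30652_gt.NotMaximal

open Pool.Agent.Y473.SA

theorem result (Γ : Subgroup SL(2, ℝ)) (hΓ : IsClosedSurface Γ) (d : ℕ) (hd : 4 ≤ d) :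
    ∃ U : Set (CharVar Γ d), IsDomainOfDiscontinuity U ∧
      ∀ k : ℕ, 1 ≤ k → k ≤ d - 1 → simpleAnosovDomain Γ d k ⊂ U :=
  ⟨Pool.Agent.N512.SA.properDomain Γ d, Pool.Agent.N512.SA.isDomain_properDomain hΓ d,
    fun _ hk hkd => Pool.Agent.N512.SA.ssubset_properDomain hΓ hd hk (by omega)⟩

end Pool.Agent.Results.MP_c30652_gt.NotMaximal
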